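import Pool.Agent.Results.MP_caca3f_an.LinearExponent
import Pool.Agent.Helper799.UnionN.Lower

/-!
# MP_caca3f_an : polynomial growth of `U_D(k)` for every `D > 1`

`U_D(k)` is the largest Euclidean distortion of a union of `k` subsets of a common metric
space, each of Euclidean distortion at most `D`.  We prove, for all `D > 1`, that
`c * k ^ ((D - 1) ^ 2 / (5000 * D)) ≤ U_D(k) ≤ 4 * D * k ^ (2 * D + 1)` for all `k ≥ 1`, with
`c > 0` depending only on `D`.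
-/

namespace Pool.Agent.Results.MP_caca3f_an.EveryDistortion

open scoped ENNReal BigOperators Topology
open Filter

universe u

/-- `X` embeds into some Hilbert space with distortion `D`: there are a map `f : X → H` into a
Hilbert space and a scale `s > 0` with `s d(x,y) ≤ ‖f x - f y‖ ≤ s D d(x,y)`. -/
def EmbedsWithDistortion (X : Type u) [MetricSpace X] (D : ℝ) : Prop :=
  ∃ (H : Type u) (_ : NormedAddCommGroup H) (_ : InnerProductSpace ℝ H) (_ : CompleteSpace H)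
    (f : X → H) (s : ℝ), 0 < s ∧
      ∀ x y, s * dist x y ≤ ‖f x - f y‖ ∧ ‖f x - f y‖ ≤ s * D * dist x y

/-- The Euclidean distortion `c₂(X) ∈ [1,∞]`: the infimum of all `D ≥ 1` such that `X` embeds
into a Hilbert space with distortion `D` (`∞` if there is no such `D`). -/
noncomputable def c2 (X : Type u) [MetricSpace X] : ℝ≥0∞ :=
  ⨅ (D : ℝ) (_ : 1 ≤ D) (_ : EmbedsWithDistortion X D), ENNReal.ofReal D

/-- `U_D(k)`: the supremum of `c₂(A₁ ∪ ⋯ ∪ A_k)` over all metric spaces `X` and all subsets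
`A₁, …, A_k` of `X` with `c₂(A_i) ≤ D` for every `i`. -/
noncomputable def U (D : ℝ) (k : ℕ) : ℝ≥0∞ :=
  ⨆ (X : Type u) (_ : MetricSpace X) (A : Fin k → Set X)
    (_ : ∀ i, c2 (A i) ≤ ENNReal.ofReal D), c2 (⋃ i, A i : Set X)

lemma upper (D : ℝ) (hD : 1 ≤ D) (k : ℕ) (hk : 1 ≤ k) :
    U.{u} D k ≤ ENNReal.ofReal (4 * D * (k : ℝ) ^ (2 * D + 1)) := by
  refine (LinearExponent.upper_general.{u} D hD k hk).trans (ENNReal.ofReal_le_ofReal ?_)
  have hk1 : (1 : ℝ) ≤ k := by exact_mod_cast hk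
  refine mul_le_mul_of_nonneg_left ?_ (by linarith)
  refine Real.rpow_le_rpow_of_exponent_le hk1 ?_
  have h1 : √(D ^ 2 + 4) ≤ D + 5 / 4 := by
    rw [Real.sqrt_le_left (by linarith)]
    nlinarith
  linarith

lemma U_mono {D : ℝ} {k k' : ℕ} (hk : 1 ≤ k) (hkk : k ≤ k') : U.{u} D k ≤ U.{u} D k' :=
  LinearExponent.U_mono.{u} hk hkk

/-- The numerical inequality behind the choice of `ε`. -/
lemma num {ε : ℝ} (hε : 0 < ε) (hε1 : ε ≤ 1 / 20) :
    1 / (1 + 7 * ε) ^ 2 ≤ H799N.rlo ε / (H799N.rhi ε * H799N.TT ε) := by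
  have h1 : (0 : ℝ) < 1 - ε := by linarith
  have hT : H799N.TT ε ≤ 1 + ε ^ 2 := by
    unfold H799N.TT
    rw [div_le_iff₀ (by unfold H799N.lamb; positivity)]
    unfold H799N.lamb
    nlinarith [sq_nonneg (ε ^ 2), sq_nonneg ε]
  have hT1 := H799N.one_le_TT (ε := ε)
  have hT0 : 0 < H799N.TT ε := by linarith
  have hhi : 0 < H799N.rhi ε := by linarith [H799N.one_le_rhi hε (by linarith)]
  rw [div_le_div_iff₀ (by positivity) (by positivity), one_mul]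
  have hB : 1 - 5 * ε ≤ (1 - ε) ^ 5 := by
    have := one_add_mul_le_pow (a := -ε) (by linarith) 5
    have e : (1 : ℝ) + -ε = 1 - ε := by ring
    rw [e] at this
    push_cast at this
    linarith
  have e1 : H799N.rhi ε * H799N.TT ε ≤ H799N.rhi ε * (1 + ε ^ 2) :=
    mul_le_mul_of_nonneg_left hT hhi.le
  refine e1.trans ?_
  unfold H799N.rhi H799N.rlo
  rw [div_mul_eq_mul_div, div_mul_eq_mul_div, div_le_div_iff₀ (by positivity) (by positivity)]
  have e2 : (1 - ε) ^ 3 * (1 + 7 * ε) ^ 2 * (1 - ε) ^ 2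
      = (1 - ε) ^ 5 * (1 + 7 * ε) ^ 2 := by ring
  rw [e2]
  have e3 : (1 - 5 * ε) * (1 + 7 * ε) ^ 2 ≤ (1 - ε) ^ 5 * (1 + 7 * ε) ^ 2 :=
    mul_le_mul_of_nonneg_right hB (by positivity)
  refine le_trans ?_ e3
  have p2 : ε ^ 2 ≤ ε / 20 := by nlinarith
  have p3 : ε ^ 3 ≤ ε / 400 := by nlinarith [sq_nonneg ε]
  have p4 : ε ^ 4 ≤ ε / 8000 := by
    have : ε ^ 4 = ε * ε ^ 3 := by ring
    nlinarith [pow_pos hε 3]
  have p5 : ε ^ 5 ≤ ε / 160000 := by
    have : ε ^ 5 = ε * ε ^ 4 := by ring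
    nlinarith [pow_pos hε 4]
  have p6 : ε ^ 6 ≤ ε / 3200000 := by
    have : ε ^ 6 = ε * ε ^ 5 := by ring
    nlinarith [pow_pos hε 5]
  have p7 : ε ^ 7 ≤ ε / 64000000 := by
    have : ε ^ 7 = ε * ε ^ 6 := by ring
    nlinarith [pow_pos hε 6]
  have p8 : ε ^ 8 ≤ ε / 1280000000 := by
    have : ε ^ 8 = ε * ε ^ 7 := by ring
    nlinarith [pow_pos hε 7]
  nlinarith [p2, p3, p4, p5, p6, p7, p8]

/-- The lower bound at powers of two. -/
lemma lower_pow {D ε : ℝ} (hε : 0 < ε) (hε1 : ε ≤ 1 / 20) (hD : 1 + 7 * ε ≤ D) (m : ℕ) :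
    ENNReal.ofReal (√(1 + ε ^ 2 / 4) ^ m / (2 * D)) ≤ U.{u} D (2 ^ m) := by
  have hD0 : 0 < D := by linarith
  have hε' : ε < 1 := by linarith
  have hω : 1 / D ^ 2 ≤ H799N.rlo ε / (H799N.rhi ε * H799N.TT ε) := by
    refine le_trans ?_ (num hε hε1)
    refine one_div_le_one_div_of_le (by positivity) ?_
    exact pow_le_pow_left₀ (by positivity) hD 2
  have hL : 1 ≤ √(1 + ε ^ 2 / 4) := by
    refine Real.le_sqrt_of_sq_le ?_
    nlinarith [sq_nonneg ε]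
  have hLT : √(1 + ε ^ 2 / 4) * (2 * √(1 + ε ^ 2)) < √(H799N.lamb (ε ^ 2) (1 + ε ^ 2)) := by
    have e1 : √(1 + ε ^ 2 / 4) * (2 * √(1 + ε ^ 2)) = √((1 + ε ^ 2 / 4) * (2 ^ 2 * (1 + ε ^ 2))) := by
      rw [Real.sqrt_mul (by positivity), Real.sqrt_mul (by positivity),
        Real.sqrt_sq (by norm_num)]
    rw [e1]
    refine Real.sqrt_lt_sqrt (by positivity) ?_
    unfold H799N.lamb
    have : 0 < ε ^ 2 := by positivity
    nlinarith
  obtain ⟨X, hX, A, hA, hlow⟩ := H799N.configN.{u, u} hε hε' hL hLT m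
  have hAi : ∀ i, c2 (A i) ≤ ENNReal.ofReal D := by
    intro i
    obtain ⟨ι, hι, g, hg⟩ := hA i
    refine iInf_le_of_le D (iInf_le_of_le (by linarith) (iInf_le_of_le ?_ le_rfl))
    refine ⟨EuclideanSpace ℝ ι, inferInstance, inferInstance, inferInstance, g,
      1, one_pos, fun x y => ?_⟩
    obtain ⟨h1, h2⟩ := hg x y
    constructor
    · rw [one_mul]
      exact (abs_le_of_sq_le_sq' h1 (norm_nonneg _)).2
    · rw [one_mul]
      refine (abs_le_of_sq_le_sq' ?_ (by positivity)).2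
      rw [mul_pow]
      have h3 : 1 / D ^ 2 * ‖g x - g y‖ ^ 2 ≤ dist x y ^ 2 :=
        (mul_le_mul_of_nonneg_right hω (sq_nonneg _)).trans h2
      rw [div_mul_eq_mul_div, one_mul, div_le_iff₀ (by positivity)] at h3
      linarith
  refine le_iSup_of_le X (le_iSup_of_le hX (le_iSup_of_le A (le_iSup_of_le hAi ?_)))
  refine le_iInf fun D' => le_iInf fun hD' => le_iInf fun hemb => ?_
  refine ENNReal.ofReal_le_ofReal ?_
  classical
  obtain ⟨H, i1, i2, _, f, s, hs, hf⟩ := hemb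
  have hD'0 : 0 < D' := by linarith
  have key := hlow H i1 i2
    (fun t => if h : t ∈ ⋃ i, A i then (1 / (s * D')) • f ⟨t, h⟩ else 0) D' hD'0.le ?_ ?_
  · refine le_trans ?_ key
    have h1 : 1 / D ≤ √(H799N.rlo ε / (H799N.rhi ε * H799N.TT ε)) := by
      refine Real.le_sqrt_of_sq_le ?_
      rw [div_pow, one_pow]
      exact hω
    have h2 : (0 : ℝ) ≤ √(1 + ε ^ 2 / 4) ^ m / 2 := by positivity
    have h3 := mul_le_mul_of_nonneg_right h1 h2
    refine le_trans (le_of_eq ?_) (h3.trans (le_of_eq ?_))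
    · field_simp
    · ring
  · intro t ht t' ht'
    rw [dif_pos ht, dif_pos ht', ← smul_sub, norm_smul, Real.norm_of_nonneg (by positivity)]
    have h1 := (hf ⟨t, ht⟩ ⟨t', ht'⟩).2
    rw [one_div, inv_mul_le_iff₀ (by positivity)]
    exact h1
  · intro t ht t' ht'
    rw [dif_pos ht, dif_pos ht', ← smul_sub, norm_smul, Real.norm_of_nonneg (by positivity)]
    have h1 := (hf ⟨t, ht⟩ ⟨t', ht'⟩).1
    have h2 : D' * (1 / (s * D') * ‖f ⟨t, ht⟩ - f ⟨t', ht'⟩‖)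
        = ‖f ⟨t, ht⟩ - f ⟨t', ht'⟩‖ / s := by
      field_simp
    rw [h2, le_div_iff₀ hs, mul_comm]
    exact h1

/-- `2 ^ x ≤ 1 + x` on `[0, 1]`. -/
lemma two_rpow_le {x : ℝ} (hx0 : 0 ≤ x) (hx1 : x ≤ 1) : (2 : ℝ) ^ x ≤ 1 + x := by
  have h := rpow_one_add_le_one_add_mul_self (s := 1) (by norm_num) hx0 hx1
  have e : (1 : ℝ) + 1 = 2 := by norm_num
  rw [e] at h
  linarith

/-- The lower bound for all `k`. -/
lemma lower_all {D ε : ℝ} (hε : 0 < ε) (hε1 : ε ≤ 1 / 20) (hD : 1 + 7 * ε ≤ D) (k : ℕ)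
    (hk : 1 ≤ k) : ENNReal.ofReal (1 / (4 * D) * (k : ℝ) ^ (ε ^ 2 / 8)) ≤ U.{u} D k := by
  have hD0 : 0 < D := by linarith
  set m := Nat.log 2 k with hm
  have h1 : 2 ^ m ≤ k := Nat.pow_log_le_self 2 (by omega)
  have h2 : k < 2 ^ (m + 1) := Nat.lt_pow_succ_log_self one_lt_two k
  refine le_trans ?_ ((lower_pow hε hε1 hD m).trans (U_mono (Nat.one_le_two_pow) h1))
  refine ENNReal.ofReal_le_ofReal ?_
  have hk0 : (0 : ℝ) < k := by exact_mod_cast hk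
  set L := √(1 + ε ^ 2 / 4) with hL
  have hL1 : 1 ≤ L := by
    refine Real.le_sqrt_of_sq_le ?_
    nlinarith [sq_nonneg ε]
  have hL2 : L ≤ 2 := by
    rw [hL, Real.sqrt_le_left (by norm_num)]
    nlinarith
  -- `2 ^ (ε² / 8) ≤ L`
  have h3 : (2 : ℝ) ^ (ε ^ 2 / 8) ≤ L := by
    refine Real.le_sqrt_of_sq_le ?_
    rw [← Real.rpow_natCast, ← Real.rpow_mul (by norm_num)]
    have e : ε ^ 2 / 8 * ((2 : ℕ) : ℝ) = ε ^ 2 / 4 := by push_cast; ring
    rw [e]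
    exact two_rpow_le (by positivity) (by nlinarith)
  have h4 : (k : ℝ) ^ (ε ^ 2 / 8) ≤ L ^ (m + 1) := by
    have h5 : (k : ℝ) ≤ 2 ^ (m + 1) := by exact_mod_cast h2.le
    calc (k : ℝ) ^ (ε ^ 2 / 8) ≤ ((2 : ℝ) ^ (m + 1)) ^ (ε ^ 2 / 8) :=
          Real.rpow_le_rpow hk0.le h5 (by positivity)
      _ = ((2 : ℝ) ^ (ε ^ 2 / 8)) ^ (m + 1) := by
          rw [← Real.rpow_natCast 2 (m + 1), ← Real.rpow_mul (by norm_num), mul_comm,
            Real.rpow_mul (by norm_num), Real.rpow_natCast]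
      _ ≤ L ^ (m + 1) := pow_le_pow_left₀ (by positivity) h3 _
  have h6 : L ^ (m + 1) ≤ 2 * L ^ m := by
    rw [pow_succ]
    have : 0 < L ^ m := by positivity
    nlinarith
  calc 1 / (4 * D) * (k : ℝ) ^ (ε ^ 2 / 8) ≤ 1 / (4 * D) * (2 * L ^ m) :=
        mul_le_mul_of_nonneg_left (h4.trans h6) (by positivity)
    _ = L ^ m / (2 * D) := by
        field_simp
        ring

lemma lower_aux {D ε : ℝ} (hε : 0 < ε) (hε1 : ε ≤ 1 / 20) (hD : 1 + 7 * ε ≤ D)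
    (hs : (D - 1) ^ 2 / (5000 * D) ≤ ε ^ 2 / 8) :
    ∃ c : ℝ, 0 < c ∧ ∀ k : ℕ, 1 ≤ k →
      ENNReal.ofReal (c * (k : ℝ) ^ ((D - 1) ^ 2 / (5000 * D))) ≤ U.{u} D k := by
  have hD0 : 0 < D := by linarith
  refine ⟨1 / (4 * D), by positivity, fun k hk => ?_⟩
  refine le_trans (ENNReal.ofReal_le_ofReal ?_) (lower_all hε hε1 hD k hk)
  have hk1 : (1 : ℝ) ≤ k := by exact_mod_cast hk
  exact mul_le_mul_of_nonneg_left (Real.rpow_le_rpow_of_exponent_le hk1 hs) (by positivity)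

lemma lower (D : ℝ) (hD : 1 < D) :
    ∃ c : ℝ, 0 < c ∧ ∀ k : ℕ, 1 ≤ k →
      ENNReal.ofReal (c * (k : ℝ) ^ ((D - 1) ^ 2 / (5000 * D))) ≤ U.{u} D k := by
  have hD0 : 0 < D := by linarith
  rcases lt_or_ge D 3 with h3 | h3
  · rcases le_total ((D - 1) / 7) (1 / 20) with h | h
    · refine lower_aux (ε := (D - 1) / 7) (by linarith) h (by linarith) ?_
      rw [div_le_div_iff₀ (by positivity) (by norm_num)]
      have h1 : 0 ≤ (D - 1) ^ 2 := sq_nonneg _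
      have h2 : ((D - 1) / 7) ^ 2 = (D - 1) ^ 2 / 49 := by ring
      rw [h2]
      nlinarith
    · refine lower_aux (ε := 1 / 20) (by norm_num) le_rfl (by linarith) ?_
      rw [div_le_div_iff₀ (by positivity) (by norm_num)]
      nlinarith
  · obtain ⟨c, hc, hcl⟩ := LinearExponent.result.{u} D h3
    refine ⟨c, hc, fun k hk => ?_⟩
    refine le_trans (ENNReal.ofReal_le_ofReal ?_) (hcl k hk).1
    have hk1 : (1 : ℝ) ≤ k := by exact_mod_cast hk
    refine mul_le_mul_of_nonneg_left (Real.rpow_le_rpow_of_exponent_le hk1 ?_) hc.le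
    rw [div_le_div_iff₀ (by positivity) (by norm_num)]
    nlinarith

/-- **Polynomial growth for every `D > 1`.**  For every `D > 1` there is `c > 0` with
`c * k ^ ((D - 1) ^ 2 / (5000 * D)) ≤ U_D(k) ≤ 4 * D * k ^ (2 * D + 1)` for every `k ≥ 1`. -/
theorem result (D : ℝ) (hD : 1 < D) :
    ∃ c : ℝ, 0 < c ∧ ∀ k : ℕ, 1 ≤ k →
      ENNReal.ofReal (c * (k : ℝ) ^ ((D - 1) ^ 2 / (5000 * D))) ≤ U.{u} D k ∧
      U.{u} D k ≤ ENNReal.ofReal (4 * D * (k : ℝ) ^ (2 * D + 1)) := by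
  obtain ⟨c, hc, hcl⟩ := lower.{u} D hD
  exact ⟨c, hc, fun k hk => ⟨hcl k hk, upper D hD.le k hk⟩⟩

end Pool.Agent.Results.MP_caca3f_an.EveryDistortion
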