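import Pool.Agent.Results.MP_caca3f_an.PolynomialGrowth
import Pool.Agent.Helper799.UnionK.Upper2
import Pool.Agent.Helper799.UnionM.Lower

/-!
# MP_caca3f_an : the exponent of the polynomial growth of `U_D(k)` is of order `D`

`U_D(k)` is the largest Euclidean distortion of a union of `k` subsets of a common metric
space, each of Euclidean distortion at most `D`.  We prove, for all `D ≥ 3`, that
`c * k ^ (D / 120) ≤ U_D(k) ≤ 4 * D * k ^ (2 * D)` for all `k ≥ 1`, with `c > 0` depending only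
on `D`.
-/

namespace Pool.Agent.Results.MP_caca3f_an.LinearExponent

open scoped ENNReal BigOperators Topology
open Filter

universe u

/-- `X` embeds into some Hilbert space with distortion `D`: there are a map `f : X → H` into a
Hilbert space and a scale `s > 0` with `s d(x,y) ≤ ‖f x - f y‖ ≤ s D d(x,y)`. -/
def EmbedsWithDistortion (X : Type u) [MetricSpace X] (D : ℝ) : Prop :=
  ∃ (H : Type u) (_ : NormedAddCommGroup H) (_ : InnerProductSpace ℝ H) (_ : CompleteSpace H)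
    (f : X → H) (s : ℝ), 0 < s ∧
      ∀ x y, s * dist x y ≤ ‖f x - f y‖ ∧ ‖f x - f y‖ ≤ s * D * dist x y

/-- The Euclidean distortion `c₂(X) ∈ [1,∞]`: the infimum of all `D ≥ 1` such that `X` embeds
into a Hilbert space with distortion `D` (`∞` if there is no such `D`). -/
noncomputable def c2 (X : Type u) [MetricSpace X] : ℝ≥0∞ :=
  ⨅ (D : ℝ) (_ : 1 ≤ D) (_ : EmbedsWithDistortion X D), ENNReal.ofReal D

/-- `U_D(k)`: the supremum of `c₂(A₁ ∪ ⋯ ∪ A_k)` over all metric spaces `X` and all subsets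
`A₁, …, A_k` of `X` with `c₂(A_i) ≤ D` for every `i`. -/
noncomputable def U (D : ℝ) (k : ℕ) : ℝ≥0∞ :=
  ⨆ (X : Type u) (_ : MetricSpace X) (A : Fin k → Set X)
    (_ : ∀ i, c2 (A i) ≤ ENNReal.ofReal D), c2 (⋃ i, A i : Set X)

/-! ### The upper bound -/

/-- From `c₂(A) ≤ D` to maps of distortion `D'` for every `D' > D`. -/
lemma pieces {X : Type u} [MetricSpace X] {D : ℝ} (hD : 1 ≤ D) (h : c2 X ≤ ENNReal.ofReal D)
    (D' : ℝ) (hD' : D < D') :
    ∃ (H : Type u) (_ : NormedAddCommGroup H) (_ : InnerProductSpace ℝ H) (f : X → H),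
      ∀ x y, ‖f x - f y‖ ≤ dist x y ∧ dist x y ≤ D' * ‖f x - f y‖ := by
  have hD0 : 0 < D := lt_of_lt_of_le one_pos hD
  have hD'0 : 0 < D' := hD0.trans hD'
  have hlt : c2 X < ENNReal.ofReal D' :=
    lt_of_le_of_lt h ((ENNReal.ofReal_lt_ofReal_iff hD'0).mpr hD')
  obtain ⟨D1, hlt1⟩ := iInf_lt_iff.mp hlt
  obtain ⟨hD1, hlt2⟩ := iInf_lt_iff.mp hlt1
  obtain ⟨hemb, hlt3⟩ := iInf_lt_iff.mp hlt2
  have hD1D' : D1 < D' := (ENNReal.ofReal_lt_ofReal_iff hD'0).mp hlt3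
  obtain ⟨H, i1, i2, _, f, s, hs, hf⟩ := hemb
  have hsD : 0 < s * D1 := mul_pos hs (by linarith)
  refine ⟨H, i1, i2, fun x => (1 / (s * D1)) • f x, fun x y => ?_⟩
  obtain ⟨h1, h2⟩ := hf x y
  have h3 : ‖(1 / (s * D1)) • f x - (1 / (s * D1)) • f y‖ = ‖f x - f y‖ / (s * D1) := by
    rw [← smul_sub, norm_smul, Real.norm_of_nonneg (by positivity)]
    ring
  rw [h3]
  constructor
  · rw [div_le_iff₀ hsD, mul_comm]
    exact h2
  · have h4 : dist x y ≤ ‖f x - f y‖ / s := by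
      rw [le_div_iff₀ hs, mul_comm]
      exact h1
    have h5 : D' * (‖f x - f y‖ / (s * D1)) = (D' / D1) * (‖f x - f y‖ / s) := by
      field_simp
    rw [h5]
    have h6 : 1 ≤ D' / D1 := by
      rw [le_div_iff₀ (by linarith)]
      linarith
    have h7 : 0 ≤ ‖f x - f y‖ / s := by positivity
    nlinarith

/-- The upper bound, for every `D ≥ 1`. -/
lemma upper_general (D : ℝ) (hD : 1 ≤ D) (k : ℕ) (hk : 1 ≤ k) :
    U.{u} D k ≤ ENNReal.ofReal (4 * D * (k : ℝ) ^ (2 * √(D ^ 2 + 4) - 3 / 2)) := by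
  refine iSup_le fun X => iSup_le fun hX => iSup_le fun A => iSup_le fun hA => ?_
  obtain ⟨H, i1, i2, i3, Φ, hΦ⟩ := H799U.main2.{u} D hD k hk X A
    (fun D' hD' i => pieces hD (hA i) D' hD')
  have hk1 : (1 : ℝ) ≤ k := by exact_mod_cast hk
  have hE : (0 : ℝ) ≤ 2 * √(D ^ 2 + 4) - 3 / 2 := by
    have : (2 : ℝ) ≤ √(D ^ 2 + 4) := Real.le_sqrt_of_sq_le (by nlinarith)
    linarith
  have h1 : (1 : ℝ) ≤ (k : ℝ) ^ (2 * √(D ^ 2 + 4) - 3 / 2) := Real.one_le_rpow hk1 hE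
  refine iInf_le_of_le (4 * D * (k : ℝ) ^ (2 * √(D ^ 2 + 4) - 3 / 2))
    (iInf_le_of_le (by nlinarith) (iInf_le_of_le ?_ le_rfl))
  refine ⟨H, i1, i2, i3, Φ, 1, one_pos, fun x y => ?_⟩
  rw [one_mul, one_mul]
  exact hΦ x y

lemma upper (D : ℝ) (hD : 3 ≤ D) (k : ℕ) (hk : 1 ≤ k) :
    U.{u} D k ≤ ENNReal.ofReal (4 * D * (k : ℝ) ^ (2 * D)) := by
  refine (upper_general D (by linarith) k hk).trans (ENNReal.ofReal_le_ofReal ?_)
  have hk1 : (1 : ℝ) ≤ k := by exact_mod_cast hk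
  refine mul_le_mul_of_nonneg_left ?_ (by linarith)
  refine Real.rpow_le_rpow_of_exponent_le hk1 ?_
  have h1 : √(D ^ 2 + 4) ≤ D + 3 / 4 := by
    rw [Real.sqrt_le_left (by linarith)]
    nlinarith
  linarith

/-! ### The lower bound -/

lemma U_mono {D : ℝ} {k k' : ℕ} (hk : 1 ≤ k) (hkk : k ≤ k') : U.{u} D k ≤ U.{u} D k' := by
  refine iSup_le fun X => iSup_le fun hX => iSup_le fun A => iSup_le fun hA => ?_
  set A' : Fin k' → Set X := fun i => A ⟨min i.1 (k - 1), by omega⟩ with hA'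
  have hA'le : ∀ i, c2 (A' i) ≤ ENNReal.ofReal D := fun i => hA _
  refine le_iSup_of_le X (le_iSup_of_le hX (le_iSup_of_le A' (le_iSup_of_le hA'le ?_)))
  have he : (⋃ i, A i) = ⋃ i, A' i := by
    apply Set.Subset.antisymm
    · refine Set.iUnion_subset fun i => ?_
      refine Set.subset_iUnion_of_subset ⟨i.1, by omega⟩ (le_of_eq ?_)
      simp only [hA']
      congr 1
      ext
      simp only
      omega
    · exact Set.iUnion_subset fun i => Set.subset_iUnion A _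
  rw [he]

/-- The lower bound along the sequence of the construction. -/
lemma lower_NN {D : ℝ} {r : ℕ} (hr : 1 ≤ r) (hD : 60 * (r : ℝ) ≤ D) (m : ℕ) :
    ENNReal.ofReal (3 ^ m / (4 * √r)) ≤ U.{u} D (H799M.NN r m) := by
  have hr1 : (1 : ℝ) ≤ r := by exact_mod_cast hr
  set T : ℝ := (183 / 10 * r) ^ 2 with hT
  have hT4 : 4 * ((r : ℝ) + 1) ≤ T := by rw [hT]; nlinarith
  have hsT : √T = 183 / 10 * r := by
    rw [hT]; exact Real.sqrt_sq (by linarith)
  have hT0 : (0 : ℝ) < T := by nlinarith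
  obtain ⟨X, hX, A, hA, hlow⟩ := H799M.configM.{u, u} (L := 3) hr hT4 (by norm_num)
    (show (3 : ℝ) * (6 * r) < √T by rw [hsT]; linarith) m
  have hD0 : 0 < D := by linarith
  have hAi : ∀ i, c2 (A i) ≤ ENNReal.ofReal D := by
    intro i
    obtain ⟨ι, hι, g, hg⟩ := hA i
    refine iInf_le_of_le D (iInf_le_of_le (by linarith) (iInf_le_of_le ?_ le_rfl))
    refine ⟨EuclideanSpace ℝ ι, inferInstance, inferInstance, inferInstance, g,
      1 / 2, by norm_num, fun x y => ?_⟩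
    obtain ⟨h1, h2⟩ := hg x y
    constructor
    · refine (abs_le_of_sq_le_sq' ?_ (norm_nonneg _)).2
      rw [mul_pow]
      refine le_trans (le_of_eq ?_) h1
      norm_num
    · refine (abs_le_of_sq_le_sq' ?_ (by positivity)).2
      refine h2.trans ?_
      rw [mul_pow, mul_pow]
      refine mul_le_mul_of_nonneg_right ?_ (sq_nonneg _)
      rw [hT]
      nlinarith
  refine le_iSup_of_le X (le_iSup_of_le hX (le_iSup_of_le A (le_iSup_of_le hAi ?_)))
  refine le_iInf fun D' => le_iInf fun hD' => le_iInf fun hemb => ?_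
  refine ENNReal.ofReal_le_ofReal ?_
  classical
  obtain ⟨H, i1, i2, _, f, s, hs, hf⟩ := hemb
  have hD'0 : 0 < D' := by linarith
  refine hlow H i1 i2 (fun t => if h : t ∈ ⋃ i, A i then (1 / (s * D')) • f ⟨t, h⟩ else 0) D'
    hD'0.le ?_ ?_
  · intro t ht t' ht'
    rw [dif_pos ht, dif_pos ht', ← smul_sub, norm_smul, Real.norm_of_nonneg (by positivity)]
    have h1 := (hf ⟨t, ht⟩ ⟨t', ht'⟩).2
    rw [one_div, inv_mul_le_iff₀ (by positivity)]
    exact h1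
  · intro t ht t' ht'
    rw [dif_pos ht, dif_pos ht', ← smul_sub, norm_smul, Real.norm_of_nonneg (by positivity)]
    have h1 := (hf ⟨t, ht⟩ ⟨t', ht'⟩).1
    have h2 : D' * (1 / (s * D') * ‖f ⟨t, ht⟩ - f ⟨t', ht'⟩‖)
        = ‖f ⟨t, ht⟩ - f ⟨t', ht'⟩‖ / s := by
      field_simp
    rw [h2, le_div_iff₀ hs, mul_comm]
    exact h1

/-- The number of labels is at most geometric: `(NN r (m+1))^r ≤ C * 3^m`. -/
lemma exists_C (r : ℕ) (hr : 1 ≤ r) :
    ∃ C : ℝ, 0 < C ∧ ∀ m : ℕ, (H799M.NN r (m + 1) : ℝ) ^ r ≤ C * 3 ^ m := by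
  have hr0 : (0 : ℝ) < r := by exact_mod_cast hr
  set e : ℝ := Real.exp 1 with he
  have he0 : 0 < e := Real.exp_pos 1
  have he3 : e < 3 := Real.exp_one_lt_three
  -- `(1 + 1/r)^r ≤ e`
  have h1 : (1 + 1 / (r : ℝ)) ^ r ≤ e := by
    have h2 : 1 + 1 / (r : ℝ) ≤ Real.exp (1 / r) := by
      have := Real.add_one_le_exp (1 / (r : ℝ))
      linarith
    calc (1 + 1 / (r : ℝ)) ^ r ≤ (Real.exp (1 / r)) ^ r :=
          pow_le_pow_left₀ (by positivity) h2 r
      _ = e := by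
          rw [← Real.exp_nat_mul, he]
          congr 1
          field_simp
  -- boundedness of `m^r (e/3)^m`
  have h3 : Tendsto (fun n : ℕ => (n : ℝ) ^ r * (e / 3) ^ n) atTop (𝓝 0) :=
    tendsto_pow_const_mul_const_pow_of_abs_lt_one r (by
      rw [abs_of_pos (by positivity), div_lt_one (by norm_num)]
      exact he3)
  obtain ⟨C0, hC0⟩ := h3.bddAbove_range
  have hC0' : ∀ n : ℕ, (n : ℝ) ^ r * (e / 3) ^ n ≤ C0 := fun n => hC0 ⟨n, rfl⟩
  have hC00 : 0 ≤ C0 := le_trans (by positivity) (hC0' 0)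
  refine ⟨(r + 2 : ℝ) ^ r * (3 * (C0 + 1)), by positivity, fun m => ?_⟩
  have hx0 : (0 : ℝ) ≤ ((m + 1 : ℕ) : ℝ) * (r + 1) * (1 + 1 / r) ^ (m + 1) := by positivity
  have h4 : (H799M.NN r (m + 1) : ℝ)
      ≤ (r + 2) * (((m + 1 : ℕ) : ℝ) * (1 + 1 / r) ^ (m + 1)) := by
    have h5 : (H799M.NN r (m + 1) : ℝ)
        ≤ ((m + 1 : ℕ) : ℝ) * (r + 1) * (1 + 1 / r) ^ (m + 1) + 1 := by
      unfold H799M.NN
      push_cast
      have := Nat.floor_le hx0
      push_cast at this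
      linarith
    have h6 : (1 : ℝ) ≤ ((m + 1 : ℕ) : ℝ) * (1 + 1 / r) ^ (m + 1) := by
      have h7 : (1 : ℝ) ≤ ((m + 1 : ℕ) : ℝ) := by
        push_cast
        have : (0 : ℝ) ≤ m := by positivity
        linarith
      have h8 : (1 : ℝ) ≤ (1 + 1 / (r : ℝ)) ^ (m + 1) :=
        one_le_pow₀ (by
          have : (0 : ℝ) < 1 / (r : ℝ) := by positivity
          linarith)
      nlinarith
    nlinarith
  calc (H799M.NN r (m + 1) : ℝ) ^ r
      ≤ ((r + 2) * (((m + 1 : ℕ) : ℝ) * (1 + 1 / r) ^ (m + 1))) ^ r :=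
        pow_le_pow_left₀ (by positivity) h4 r
    _ = (r + 2) ^ r * (((m + 1 : ℕ) : ℝ) ^ r * ((1 + 1 / (r : ℝ)) ^ r) ^ (m + 1)) := by
        rw [mul_pow, mul_pow, ← pow_mul, ← pow_mul, Nat.mul_comm (m + 1) r]
    _ ≤ (r + 2) ^ r * (((m + 1 : ℕ) : ℝ) ^ r * e ^ (m + 1)) := by
        refine mul_le_mul_of_nonneg_left ?_ (by positivity)
        refine mul_le_mul_of_nonneg_left ?_ (by positivity)
        exact pow_le_pow_left₀ (by positivity) h1 _
    _ = (r + 2) ^ r * ((((m + 1 : ℕ) : ℝ) ^ r * (e / 3) ^ (m + 1)) * 3 ^ (m + 1)) := by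
        rw [div_pow]
        field_simp
    _ ≤ (r + 2) ^ r * (C0 * 3 ^ (m + 1)) := by
        refine mul_le_mul_of_nonneg_left ?_ (by positivity)
        exact mul_le_mul_of_nonneg_right (hC0' (m + 1)) (by positivity)
    _ ≤ (r + 2 : ℝ) ^ r * (3 * (C0 + 1)) * 3 ^ m := by
        rw [mul_assoc]
        refine mul_le_mul_of_nonneg_left ?_ (by positivity)
        rw [pow_succ]
        have : (0 : ℝ) < 3 ^ m := by positivity
        nlinarith

lemma NN_zero (r : ℕ) : H799M.NN r 0 = 1 := by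
  unfold H799M.NN
  simp

lemma NN_unbounded (r : ℕ) (hr : 1 ≤ r) (k : ℕ) : k < H799M.NN r k := by
  have hr0 : (0 : ℝ) < r := by exact_mod_cast hr
  unfold H799M.NN
  refine Nat.lt_succ_of_le (Nat.le_floor ?_)
  have h8 : (1 : ℝ) ≤ (1 + 1 / (r : ℝ)) ^ k :=
    one_le_pow₀ (by
      have : (0 : ℝ) < 1 / (r : ℝ) := by positivity
      linarith)
  have hk : (0 : ℝ) ≤ k := by positivity
  have h9 : (k : ℝ) ≤ k * (r + 1) := by nlinarith
  calc (k : ℝ) = k * 1 := by ring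
    _ ≤ (k * (r + 1)) * (1 + 1 / (r : ℝ)) ^ k := by
        refine mul_le_mul h9 h8 (by norm_num) (by positivity)

lemma lower_large {D : ℝ} {r : ℕ} (hr : 1 ≤ r) (hD : 60 * (r : ℝ) ≤ D) :
    ∃ c : ℝ, 0 < c ∧ ∀ k : ℕ, 1 ≤ k → ENNReal.ofReal (c * (k : ℝ) ^ r) ≤ U.{u} D k := by
  have hr0 : (0 : ℝ) < r := by exact_mod_cast hr
  obtain ⟨C, hC, hCm⟩ := exists_C r hr
  refine ⟨1 / (4 * √r * C), by positivity, fun k hk => ?_⟩
  classical
  have hex : ∃ m, k < H799M.NN r (m + 1) :=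
    ⟨k, (Nat.lt_succ_self k).trans (NN_unbounded r hr (k + 1))⟩
  obtain ⟨m, hm1, hm2⟩ : ∃ m, H799M.NN r m ≤ k ∧ k < H799M.NN r (m + 1) := by
    refine ⟨Nat.find hex, ?_, Nat.find_spec hex⟩
    rcases Nat.eq_zero_or_pos (Nat.find hex) with h0 | h0
    · rw [h0, NN_zero]
      exact hk
    · have h1 := Nat.find_min hex (m := Nat.find hex - 1) (by omega)
      rw [Nat.sub_add_cancel h0] at h1
      exact Nat.le_of_not_lt h1
  have hN1 : 1 ≤ H799M.NN r m := by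
    unfold H799M.NN
    omega
  refine le_trans ?_ ((lower_NN hr hD m).trans (U_mono hN1 hm1))
  refine ENNReal.ofReal_le_ofReal ?_
  have h1 : (k : ℝ) ^ r ≤ C * 3 ^ m := by
    have h2 : (k : ℝ) ≤ H799M.NN r (m + 1) := by exact_mod_cast hm2.le
    exact (pow_le_pow_left₀ (by positivity) h2 r).trans (hCm m)
  calc 1 / (4 * √r * C) * (k : ℝ) ^ r ≤ 1 / (4 * √r * C) * (C * 3 ^ m) :=
        mul_le_mul_of_nonneg_left h1 (by positivity)
    _ = 3 ^ m / (4 * √r) := by field_simp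

lemma lower_small {D : ℝ} (hD : 3 ≤ D) (hD' : D < 60) :
    ∃ c : ℝ, 0 < c ∧ ∀ k : ℕ, 1 ≤ k →
      ENNReal.ofReal (c * (k : ℝ) ^ (D / 120)) ≤ U.{u} D k := by
  refine ⟨2 / (3 * D), by positivity, fun k hk => ?_⟩
  refine le_trans (ENNReal.ofReal_le_ofReal ?_)
    ((PolynomialGrowth.result.{u} D (by linarith)).2 k hk).1
  have hk1 : (1 : ℝ) ≤ k := by exact_mod_cast hk
  refine mul_le_mul_of_nonneg_left ?_ (by positivity)
  refine Real.rpow_le_rpow_of_exponent_le hk1 ?_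
  have hx : (0 : ℝ) < 3 * D / 8 := by positivity
  rw [Real.le_logb_iff_rpow_le one_lt_two hx]
  rcases le_total (3 * D / 8) 2 with h | h
  · -- `D / 120 ≤ 2 / 45 ≤ 1 / 6` and `(9 / 8) ^ 6 ≥ 2`
    have h1 : D / 120 ≤ 1 / 6 := by linarith
    calc (2 : ℝ) ^ (D / 120) ≤ 2 ^ (1 / 6 : ℝ) :=
          Real.rpow_le_rpow_of_exponent_le (by norm_num) h1
      _ ≤ ((9 / 8 : ℝ) ^ (6 : ℝ)) ^ (1 / 6 : ℝ) := by
          refine Real.rpow_le_rpow (by norm_num) ?_ (by norm_num)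
          rw [show (6 : ℝ) = ((6 : ℕ) : ℝ) by norm_num, Real.rpow_natCast]
          norm_num
      _ = 9 / 8 := by
          rw [← Real.rpow_mul (by norm_num)]
          norm_num
      _ ≤ 3 * D / 8 := by linarith
  · calc (2 : ℝ) ^ (D / 120) ≤ 2 ^ (1 : ℝ) :=
          Real.rpow_le_rpow_of_exponent_le (by norm_num) (by linarith)
      _ = 2 := Real.rpow_one 2
      _ ≤ 3 * D / 8 := h

/-- **The exponent of growth is of order `D`.**  For every `D ≥ 3` there is `c > 0` with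
`c * k ^ (D / 120) ≤ U_D(k) ≤ 4 * D * k ^ (2 * D)` for every `k ≥ 1`. -/
theorem result (D : ℝ) (hD : 3 ≤ D) :
    ∃ c : ℝ, 0 < c ∧ ∀ k : ℕ, 1 ≤ k →
      ENNReal.ofReal (c * (k : ℝ) ^ (D / 120)) ≤ U.{u} D k ∧
      U.{u} D k ≤ ENNReal.ofReal (4 * D * (k : ℝ) ^ (2 * D)) := by
  rcases lt_or_ge D 60 with h | h
  · obtain ⟨c, hc, hcl⟩ := lower_small.{u} hD h
    exact ⟨c, hc, fun k hk => ⟨hcl k hk, upper D hD k hk⟩⟩
  · set r : ℕ := ⌊D / 60⌋₊ with hr
    have hr1 : 1 ≤ r := Nat.le_floor (by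
      push_cast
      linarith)
    have hrD : 60 * (r : ℝ) ≤ D := by
      have := Nat.floor_le (show 0 ≤ D / 60 by positivity)
      rw [← hr] at this
      linarith
    have hrD' : D / 120 ≤ r := by
      have h1 : D / 60 < r + 1 := Nat.lt_floor_add_one _
      have h2 : (1 : ℝ) ≤ r := by exact_mod_cast hr1
      linarith
    obtain ⟨c, hc, hcl⟩ := lower_large.{u} hr1 hrD
    refine ⟨c, hc, fun k hk => ⟨?_, upper D hD k hk⟩⟩
    refine le_trans (ENNReal.ofReal_le_ofReal ?_) (hcl k hk)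
    have hk1 : (1 : ℝ) ≤ k := by exact_mod_cast hk
    refine mul_le_mul_of_nonneg_left ?_ hc.le
    calc (k : ℝ) ^ (D / 120) ≤ (k : ℝ) ^ (r : ℝ) :=
          Real.rpow_le_rpow_of_exponent_le hk1 hrD'
      _ = (k : ℝ) ^ r := Real.rpow_natCast _ _

end Pool.Agent.Results.MP_caca3f_an.LinearExponent
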