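import Pool.Agent.Results.MP_caca3f_an.PolynomialUnion
import Pool.Agent.Helper799.UnionL.Config

/-!
# MP_caca3f_an : the growth of `U_D(k)` is polynomial for every fixed `D > 8/3`

`U_D(k)` is the largest Euclidean distortion of a union of `k` subsets of a common metric
space, each of Euclidean distortion at most `D`.  We prove, for all `D > 8/3` and `k ≥ 1`,
`2 / (3 D) * k ^ (log₂ (3 D / 8)) ≤ U_D(k) ≤ 4 * D * k ^ (2 + D ^ 2 / 2)`.
-/

namespace Pool.Agent.Results.MP_caca3f_an.PolynomialGrowth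

open scoped ENNReal BigOperators Topology
open Filter

universe u

/-- `X` embeds into some Hilbert space with distortion `D`: there are a map `f : X → H` into a
Hilbert space and a scale `s > 0` with `s d(x,y) ≤ ‖f x - f y‖ ≤ s D d(x,y)`. -/
def EmbedsWithDistortion (X : Type u) [MetricSpace X] (D : ℝ) : Prop :=
  ∃ (H : Type u) (_ : NormedAddCommGroup H) (_ : InnerProductSpace ℝ H) (_ : CompleteSpace H)
    (f : X → H) (s : ℝ), 0 < s ∧
      ∀ x y, s * dist x y ≤ ‖f x - f y‖ ∧ ‖f x - f y‖ ≤ s * D * dist x y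

/-- The Euclidean distortion `c₂(X) ∈ [1,∞]`: the infimum of all `D ≥ 1` such that `X` embeds
into a Hilbert space with distortion `D` (`∞` if there is no such `D`). -/
noncomputable def c2 (X : Type u) [MetricSpace X] : ℝ≥0∞ :=
  ⨅ (D : ℝ) (_ : 1 ≤ D) (_ : EmbedsWithDistortion X D), ENNReal.ofReal D

/-- `U_D(k)`: the supremum of `c₂(A₁ ∪ ⋯ ∪ A_k)` over all metric spaces `X` and all subsets
`A₁, …, A_k` of `X` with `c₂(A_i) ≤ D` for every `i`. -/
noncomputable def U (D : ℝ) (k : ℕ) : ℝ≥0∞ :=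
  ⨆ (X : Type u) (_ : MetricSpace X) (A : Fin k → Set X)
    (_ : ∀ i, c2 (A i) ≤ ENNReal.ofReal D), c2 (⋃ i, A i : Set X)

lemma upper (D : ℝ) (hD : 1 ≤ D) (k : ℕ) (hk : 1 ≤ k) :
    U.{u} D k ≤ ENNReal.ofReal (4 * D * (k : ℝ) ^ (2 + D ^ 2 / 2)) :=
  PolynomialUnion.result.{u} D hD k hk

/-- `U_D` at powers of two, with a strict bound on the base. -/
lemma lower_pow {D L : ℝ} (hD : 8 / 3 < D) (hL : 1 ≤ L) (hLD : L < 3 * D / 8) (m : ℕ) :
    ENNReal.ofReal (L ^ m / 4) ≤ U.{u} D (2 ^ m) := by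
  set T : ℝ := (3 * D / 4) ^ 2 with hT
  have hT4 : 4 ≤ T := by rw [hT]; nlinarith
  have hsT : √T = 3 * D / 4 := by
    rw [hT]; exact Real.sqrt_sq (by linarith)
  have hT1 : (0 : ℝ) < T - 1 := by linarith
  have hT0 : (0 : ℝ) < T := by linarith
  obtain ⟨X, hX, A, hA, hlow⟩ := H799L.config.{u, u} hT4 hL
    (show L < √T / 2 by rw [hsT]; linarith) m
  have hAi : ∀ i, c2 (A i) ≤ ENNReal.ofReal D := by
    intro i
    obtain ⟨ι, hι, g, hg⟩ := hA i
    refine iInf_le_of_le D (iInf_le_of_le (by linarith) (iInf_le_of_le ?_ le_rfl))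
    have hs : (0 : ℝ) < (T - 1) / T := by positivity
    refine ⟨EuclideanSpace ℝ ι, inferInstance, inferInstance, inferInstance, g,
      √((T - 1) / T), Real.sqrt_pos.mpr hs, fun x y => ?_⟩
    obtain ⟨h1, h2⟩ := hg x y
    constructor
    · refine (abs_le_of_sq_le_sq' ?_ (norm_nonneg _)).2
      rw [mul_pow, Real.sq_sqrt hs.le]
      exact h1
    · refine (abs_le_of_sq_le_sq' ?_ (by have : 0 < D := by linarith
                                         positivity)).2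
      refine h2.trans ?_
      rw [mul_pow, mul_pow, Real.sq_sqrt hs.le]
      refine mul_le_mul_of_nonneg_right ?_ (sq_nonneg _)
      have hD2 : D ^ 2 = 16 * T / 9 := by rw [hT]; ring
      rw [hD2, div_le_iff₀ hT1]
      have h3 : (T - 1) / T * (16 * T / 9) * (T - 1) = 16 * (T - 1) ^ 2 / 9 := by
        field_simp
      rw [h3]
      nlinarith
  refine le_iSup_of_le X (le_iSup_of_le hX (le_iSup_of_le A (le_iSup_of_le hAi ?_)))
  refine le_iInf fun D' => le_iInf fun hD' => le_iInf fun hemb => ?_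
  refine ENNReal.ofReal_le_ofReal ?_
  classical
  obtain ⟨H, i1, i2, _, f, s, hs, hf⟩ := hemb
  have hD'0 : 0 < D' := by linarith
  refine hlow H i1 i2 (fun t => if h : t ∈ ⋃ i, A i then (1 / (s * D')) • f ⟨t, h⟩ else 0) D'
    hD'0.le ?_ ?_
  · intro t ht t' ht'
    rw [dif_pos ht, dif_pos ht', ← smul_sub, norm_smul, Real.norm_of_nonneg (by positivity)]
    have h1 := (hf ⟨t, ht⟩ ⟨t', ht'⟩).2
    rw [one_div, inv_mul_le_iff₀ (by positivity)]
    exact h1
  · intro t ht t' ht'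
    rw [dif_pos ht, dif_pos ht', ← smul_sub, norm_smul, Real.norm_of_nonneg (by positivity)]
    have h1 := (hf ⟨t, ht⟩ ⟨t', ht'⟩).1
    have h2 : D' * (1 / (s * D') * ‖f ⟨t, ht⟩ - f ⟨t', ht'⟩‖)
        = ‖f ⟨t, ht⟩ - f ⟨t', ht'⟩‖ / s := by
      field_simp
    rw [h2, le_div_iff₀ hs, mul_comm]
    exact h1

lemma lower_pow' {D : ℝ} (hD : 8 / 3 < D) (m : ℕ) :
    ENNReal.ofReal ((3 * D / 8) ^ m / 4) ≤ U.{u} D (2 ^ m) := by
  have hc : Continuous fun L : ℝ => ENNReal.ofReal (L ^ m / 4) :=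
    ENNReal.continuous_ofReal.comp ((continuous_pow m).div_const 4)
  have ht : Tendsto (fun L : ℝ => ENNReal.ofReal (L ^ m / 4)) (𝓝[<] (3 * D / 8))
      (𝓝 (ENNReal.ofReal ((3 * D / 8) ^ m / 4))) :=
    (hc.tendsto _).mono_left nhdsWithin_le_nhds
  refine le_of_tendsto ht ?_
  have h1 : (1 : ℝ) < 3 * D / 8 := by linarith
  have h2 : ∀ᶠ L in 𝓝[<] (3 * D / 8), 1 < L :=
    (lt_mem_nhds h1).filter_mono nhdsWithin_le_nhds
  filter_upwards [h2, self_mem_nhdsWithin] with L hL1 hL2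
  exact lower_pow hD hL1.le hL2 m

lemma U_mono {D : ℝ} {k k' : ℕ} (hk : 1 ≤ k) (hkk : k ≤ k') : U.{u} D k ≤ U.{u} D k' := by
  refine iSup_le fun X => iSup_le fun hX => iSup_le fun A => iSup_le fun hA => ?_
  set A' : Fin k' → Set X := fun i => A ⟨min i.1 (k - 1), by omega⟩ with hA'
  have hA'le : ∀ i, c2 (A' i) ≤ ENNReal.ofReal D := fun i => hA _
  refine le_iSup_of_le X (le_iSup_of_le hX (le_iSup_of_le A' (le_iSup_of_le hA'le ?_)))
  have he : (⋃ i, A i) = ⋃ i, A' i := by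
    apply Set.Subset.antisymm
    · refine Set.iUnion_subset fun i => ?_
      refine Set.subset_iUnion_of_subset ⟨i.1, by omega⟩ (le_of_eq ?_)
      simp only [hA']
      congr 1
      ext
      simp only
      omega
    · exact Set.iUnion_subset fun i => Set.subset_iUnion A _
  rw [he]

/-- **Polynomial growth.**  For every `D > 8/3` and every `k ≥ 1`,
`2 / (3 D) * k ^ (log₂ (3 D / 8)) ≤ U_D(k) ≤ 4 * D * k ^ (2 + D ^ 2 / 2)`, where the exponent
`log₂ (3 D / 8)` is positive. -/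
theorem result (D : ℝ) (hD : 8 / 3 < D) :
    0 < Real.logb 2 (3 * D / 8) ∧ ∀ k : ℕ, 1 ≤ k →
      ENNReal.ofReal (2 / (3 * D) * (k : ℝ) ^ Real.logb 2 (3 * D / 8)) ≤ U.{u} D k ∧
      U.{u} D k ≤ ENNReal.ofReal (4 * D * (k : ℝ) ^ (2 + D ^ 2 / 2)) := by
  have hb1 : (1 : ℝ) < 3 * D / 8 := by linarith
  refine ⟨Real.logb_pos one_lt_two hb1, fun k hk => ⟨?_, upper D (by linarith) k hk⟩⟩
  set m := Nat.log 2 k with hm
  have h1 : 2 ^ m ≤ k := Nat.pow_log_le_self 2 (by omega)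
  have h2 : k < 2 ^ (m + 1) := Nat.lt_pow_succ_log_self one_lt_two k
  refine le_trans ?_ ((lower_pow' hD m).trans (U_mono (Nat.one_le_two_pow) h1))
  refine ENNReal.ofReal_le_ofReal ?_
  have hk0 : (0 : ℝ) < k := by exact_mod_cast hk
  have h3 : (k : ℝ) ^ Real.logb 2 (3 * D / 8) ≤ (3 * D / 8) ^ (m + 1) := by
    have h4 : (k : ℝ) ≤ 2 ^ (m + 1) := by exact_mod_cast h2.le
    calc (k : ℝ) ^ Real.logb 2 (3 * D / 8)
        ≤ ((2 : ℝ) ^ (m + 1)) ^ Real.logb 2 (3 * D / 8) :=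
          Real.rpow_le_rpow hk0.le h4 (Real.logb_pos one_lt_two hb1).le
      _ = (3 * D / 8) ^ (m + 1) := by
          rw [← Real.rpow_natCast 2 (m + 1), ← Real.rpow_mul (by norm_num), mul_comm,
            Real.rpow_mul (by norm_num), Real.rpow_logb (by norm_num) (by norm_num) (by linarith),
            Real.rpow_natCast]
  have hD0 : 0 < D := by linarith
  calc 2 / (3 * D) * (k : ℝ) ^ Real.logb 2 (3 * D / 8)
      ≤ 2 / (3 * D) * (3 * D / 8) ^ (m + 1) := mul_le_mul_of_nonneg_left h3 (by positivity)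
    _ = (3 * D / 8) ^ m / 4 := by
        rw [pow_succ]
        field_simp
        ring

end Pool.Agent.Results.MP_caca3f_an.PolynomialGrowth
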