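import Pool.Agent.Helper799.UnionK.FinEmb
import Pool.Agent.Helper799.UnionK.Limit

/-!
# MP_caca3f_an : a polynomial upper bound for `U_D(k)`

`U_D(k)` is the largest Euclidean distortion of a union of `k` subsets of a common metric
space, each of Euclidean distortion at most `D`.  We prove
`U_D(k) ≤ 4 * D * k ^ (2 + D ^ 2 / 2)` for all `D ≥ 1` and all `k ≥ 1`.
-/

namespace Pool.Agent.Results.MP_caca3f_an.PolynomialUnion

open scoped ENNReal BigOperators Topology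
open Filter H799U

universe u

/-- `X` embeds into some Hilbert space with distortion `D`: there are a map `f : X → H` into a
Hilbert space and a scale `s > 0` with `s d(x,y) ≤ ‖f x - f y‖ ≤ s D d(x,y)`. -/
def EmbedsWithDistortion (X : Type u) [MetricSpace X] (D : ℝ) : Prop :=
  ∃ (H : Type u) (_ : NormedAddCommGroup H) (_ : InnerProductSpace ℝ H) (_ : CompleteSpace H)
    (f : X → H) (s : ℝ), 0 < s ∧
      ∀ x y, s * dist x y ≤ ‖f x - f y‖ ∧ ‖f x - f y‖ ≤ s * D * dist x y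

/-- The Euclidean distortion `c₂(X) ∈ [1,∞]`: the infimum of all `D ≥ 1` such that `X` embeds
into a Hilbert space with distortion `D` (`∞` if there is no such `D`). -/
noncomputable def c2 (X : Type u) [MetricSpace X] : ℝ≥0∞ :=
  ⨅ (D : ℝ) (_ : 1 ≤ D) (_ : EmbedsWithDistortion X D), ENNReal.ofReal D

/-- `U_D(k)`: the supremum of `c₂(A₁ ∪ ⋯ ∪ A_k)` over all metric spaces `X` and all subsets
`A₁, …, A_k` of `X` with `c₂(A_i) ≤ D` for every `i`. -/
noncomputable def U (D : ℝ) (k : ℕ) : ℝ≥0∞ :=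
  ⨆ (X : Type u) (_ : MetricSpace X) (A : Fin k → Set X)
    (_ : ∀ i, c2 (A i) ≤ ENNReal.ofReal D), c2 (⋃ i, A i : Set X)

lemma exists_coords {T : Type*} [Finite T] {H : Type*} [NormedAddCommGroup H]
    [InnerProductSpace ℝ H] (f : T → H) :
    ∃ (n : ℕ) (g : T → Fin n → ℝ), ∀ x y, ∑ i, (g x i - g y i) ^ 2 = ‖f x - f y‖ ^ 2 := by
  classical
  set V : Submodule ℝ H := Submodule.span ℝ (Set.range f) with hV
  haveI : FiniteDimensional ℝ V := FiniteDimensional.span_of_finite ℝ (Set.finite_range f)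
  have hmem : ∀ x, f x ∈ V := fun x => Submodule.subset_span ⟨x, rfl⟩
  set b := stdOrthonormalBasis ℝ V with hb
  refine ⟨_, fun x i => b.repr ⟨f x, hmem x⟩ i, fun x y => ?_⟩
  have h1 : ‖b.repr (⟨f x, hmem x⟩ - ⟨f y, hmem y⟩)‖ ^ 2 = ‖f x - f y‖ ^ 2 := by
    rw [LinearIsometryEquiv.norm_map]
    rfl
  rw [← h1, EuclideanSpace.norm_sq_eq]
  refine Finset.sum_congr rfl fun i _ => ?_
  rw [map_sub]
  simp [Real.norm_eq_abs, sq_abs]

lemma grow_le (D : ℝ) (n : ℕ) : grow D n ≤ ((n : ℝ) + 1) ^ (D ^ 2 + 3) := by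
  induction n with
  | zero => simp [grow]
  | succ n ih =>
    have hn : (0 : ℝ) < (n : ℝ) + 1 := by positivity
    have h1 : 1 + (D ^ 2 + 3) / ((n : ℝ) + 1) ≤ (1 + 1 / ((n : ℝ) + 1)) ^ (D ^ 2 + 3) := by
      have := one_add_mul_self_le_rpow_one_add (s := 1 / ((n : ℝ) + 1))
        (by have : (0 : ℝ) < 1 / ((n : ℝ) + 1) := by positivity
            linarith) (p := D ^ 2 + 3) (by nlinarith [sq_nonneg D])
      rw [mul_one_div] at this
      exact this
    rw [grow_succ]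
    calc grow D n * (1 + (D ^ 2 + 3) / ((n : ℝ) + 1))
        ≤ ((n : ℝ) + 1) ^ (D ^ 2 + 3) * (1 + 1 / ((n : ℝ) + 1)) ^ (D ^ 2 + 3) :=
          mul_le_mul ih h1 (by positivity) (by positivity)
      _ = (((n : ℝ) + 1) * (1 + 1 / ((n : ℝ) + 1))) ^ (D ^ 2 + 3) := by
          rw [Real.mul_rpow hn.le (by positivity)]
      _ = (((n + 1 : ℕ) : ℝ) + 1) ^ (D ^ 2 + 3) := by
          congr 1
          push_cast
          field_simp

lemma one_le_grow (D : ℝ) (n : ℕ) : 1 ≤ grow D n := by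
  induction n with
  | zero => simp [grow]
  | succ n ih =>
    rw [grow_succ]
    have : (0 : ℝ) ≤ (D ^ 2 + 3) / ((n : ℝ) + 1) := by positivity
    nlinarith

lemma continuous_grow (n : ℕ) : Continuous fun D : ℝ => grow D n := by
  unfold grow
  fun_prop

/-- The main estimate for one configuration. -/
theorem main (D : ℝ) (hD : 1 ≤ D) (k : ℕ) (hk : 1 ≤ k) (X : Type u) [MetricSpace X]
    (A : Fin k → Set X) (hA : ∀ i, c2 (A i) ≤ ENNReal.ofReal D) :
    EmbedsWithDistortion (⋃ i, A i : Set X) (4 * D * (k : ℝ) ^ (2 + D ^ 2 / 2)) := by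
  classical
  have hD0 : 0 < D := lt_of_lt_of_le one_pos hD
  have hk0 : (0 : ℝ) < k := by exact_mod_cast hk
  set R : ℝ := 16 * D ^ 2 * (k : ℝ) ^ (D ^ 2 + 3) with hR
  have hkpow : (1 : ℝ) ≤ (k : ℝ) ^ (D ^ 2 + 3) :=
    Real.one_le_rpow (by exact_mod_cast hk) (by positivity)
  have hgr : grow D (k - 1) ≤ (k : ℝ) ^ (D ^ 2 + 3) := by
    have h := grow_le D (k - 1)
    have h2 : (((k - 1 : ℕ) : ℝ) + 1) = k := by
      have : (k - 1) + 1 = k := Nat.sub_add_cancel hk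
      exact_mod_cast this
    rw [h2] at h
    exact h
  have hlt : 10 * D ^ 2 * grow D (k - 1) < R := by
    have h1 : 10 * D ^ 2 * grow D (k - 1) ≤ 10 * D ^ 2 * (k : ℝ) ^ (D ^ 2 + 3) :=
      mul_le_mul_of_nonneg_left hgr (by positivity)
    have h2 : 10 * D ^ 2 * (k : ℝ) ^ (D ^ 2 + 3) < R := by
      rw [hR]
      have : 0 < D ^ 2 * (k : ℝ) ^ (D ^ 2 + 3) := by positivity
      nlinarith
    linarith
  have hcont : Continuous fun t : ℝ => 10 * t ^ 2 * grow t (k - 1) :=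
    ((continuous_const.mul (continuous_pow 2))).mul (continuous_grow (k - 1))
  have hev : ∀ᶠ t in 𝓝[>] D, 10 * t ^ 2 * grow t (k - 1) < R :=
    (hcont.continuousAt.eventually (gt_mem_nhds hlt)).filter_mono nhdsWithin_le_nhds
  obtain ⟨D', hD'1, hD'2⟩ := (hev.and self_mem_nhdsWithin).exists
  have hD'3 : D < D' := hD'2
  have hD'pos : 0 < D' := by linarith
  set M' : ℝ := R / (10 * D' ^ 2) with hM'
  have hM'gt : grow D' (k - 1) < M' := by
    rw [hM', lt_div_iff₀ (by positivity)]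
    linarith
  have hM'1 : 1 ≤ M' := (one_le_grow D' (k - 1)).trans hM'gt.le
  have hKval : 10 * D' ^ 2 * k * M' = R * k := by
    rw [hM']; field_simp
  -- embeddings of the pieces
  have hpieces : ∀ i : Fin k, ∃ (H : Type u) (_ : NormedAddCommGroup H)
      (_ : InnerProductSpace ℝ H) (f : A i → H), ∀ x y, ‖f x - f y‖ ≤ dist x y ∧
        dist x y ≤ D' * ‖f x - f y‖ := by
    intro i
    have h1 : c2 (A i) < ENNReal.ofReal D' :=
      lt_of_le_of_lt (hA i) ((ENNReal.ofReal_lt_ofReal_iff hD'pos).mpr hD'3)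
    simp only [c2, iInf_lt_iff] at h1
    obtain ⟨D₁, hD₁, ⟨H, i1, i2, _, f, s, hs, hf⟩, hlt1⟩ := h1
    have hD₁lt : D₁ < D' := (ENNReal.ofReal_lt_ofReal_iff hD'pos).mp hlt1
    have hD₁0 : 0 < D₁ := by linarith
    refine ⟨H, i1, i2, fun x => (1 / (s * D₁)) • f x, fun x y => ?_⟩
    have hsc : ‖(1 / (s * D₁)) • f x - (1 / (s * D₁)) • f y‖ = ‖f x - f y‖ / (s * D₁) := by
      rw [← smul_sub, norm_smul, Real.norm_of_nonneg (by positivity)]
      ring
    rw [hsc]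
    obtain ⟨ha, hb⟩ := hf x y
    constructor
    · rw [div_le_iff₀ (by positivity)]
      linarith
    · have h3 : dist x y ≤ ‖f x - f y‖ / s := by
        rw [le_div_iff₀ hs]; linarith
      have h4 : D' * (‖f x - f y‖ / (s * D₁)) = (‖f x - f y‖ / s) * (D' / D₁) := by
        field_simp
      rw [h4]
      have h5 : 1 ≤ D' / D₁ := by rw [le_div_iff₀ hD₁0]; linarith
      have h6 : 0 ≤ ‖f x - f y‖ / s := by positivity
      nlinarith
  set Y : Set X := ⋃ i, A i with hY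
  obtain ⟨H, i1, i2, i3, Φ, hΦ⟩ := limit_embedding (X := Y) (fun x y => dist x y) (R * k) (by
    intro T
    have hfinT : ∃ (ι : Type) (_ : Fintype ι) (Φ : {x // x ∈ T} → ι → ℝ), ∀ x y,
        dist x y ^ 2 ≤ ∑ a, (Φ x a - Φ y a) ^ 2 ∧
        ∑ a, (Φ x a - Φ y a) ^ 2 ≤ (10 * D' ^ 2 * k * M') * dist x y ^ 2 := by
      refine fin_embedding (X := {x // x ∈ T}) (fun x y => dist x y) dist_comm
        (fun _ _ => dist_nonneg) dist_self (fun x y h => dist_pos.mpr h) dist_triangle D'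
        (by linarith) k (fun i => {x | ((x : Y) : X) ∈ A i}) ?_ ?_ M' hM'gt hM'1
      · intro x
        have hx : ((x : Y) : X) ∈ ⋃ i, A i := (x : Y).2
        obtain ⟨i, hi⟩ := Set.mem_iUnion.mp hx
        exact ⟨i, hi⟩
      · intro j
        obtain ⟨H, i1, i2, f, hf⟩ := hpieces j
        obtain ⟨n, g, hg⟩ := exists_coords (T := {x // x ∈ T})
          (fun x => if h : ((x : Y) : X) ∈ A j then f ⟨_, h⟩ else 0)
        refine ⟨Fin n, inferInstance, g, ?_⟩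
        intro y hy z hz
        have hy' : ((y : Y) : X) ∈ A j := hy
        have hz' : ((z : Y) : X) ∈ A j := hz
        rw [hg y z, dif_pos hy', dif_pos hz']
        obtain ⟨h1, h2⟩ := hf ⟨_, hy'⟩ ⟨_, hz'⟩
        have hdd : dist (⟨((y : Y) : X), hy'⟩ : A j) ⟨((z : Y) : X), hz'⟩ = dist y z := rfl
        rw [hdd] at h1 h2
        refine ⟨pow_le_pow_left₀ (norm_nonneg _) h1 2, ?_⟩
        rw [← mul_pow]
        exact pow_le_pow_left₀ dist_nonneg h2 2
    obtain ⟨ι, hι, Φ, hΦ⟩ := hfinT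
    refine ⟨ι, hι, fun x => if h : x ∈ T then Φ ⟨x, h⟩ else 0, ?_⟩
    intro x hx y hy
    simp only [dif_pos hx, dif_pos hy]
    rw [← hKval]
    exact hΦ ⟨x, hx⟩ ⟨y, hy⟩)
  refine ⟨H, i1, i2, i3, Φ, 1, one_pos, fun x y => ?_⟩
  obtain ⟨h1, h2⟩ := hΦ x y
  have hQ : (4 * D * (k : ℝ) ^ (2 + D ^ 2 / 2)) ^ 2 = R * k := by
    rw [hR, mul_pow, mul_pow, ← Real.rpow_natCast ((k : ℝ) ^ (2 + D ^ 2 / 2)) 2,
      ← Real.rpow_mul hk0.le]
    have h3 : (k : ℝ) ^ (D ^ 2 + 3) * k = (k : ℝ) ^ ((2 + D ^ 2 / 2) * ((2 : ℕ) : ℝ)) := by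
      have h4 : (2 + D ^ 2 / 2) * ((2 : ℕ) : ℝ) = (D ^ 2 + 3) + 1 := by push_cast; ring
      rw [h4, Real.rpow_add hk0 (D ^ 2 + 3) 1, Real.rpow_one]
    rw [← h3]; ring
  constructor
  · rw [one_mul]
    exact (abs_le_of_sq_le_sq' h1 (norm_nonneg _)).2
  · rw [one_mul]
    have hq0 : 0 ≤ 4 * D * (k : ℝ) ^ (2 + D ^ 2 / 2) := by positivity
    have h5 : ‖Φ x - Φ y‖ ^ 2 ≤ (4 * D * (k : ℝ) ^ (2 + D ^ 2 / 2) * dist x y) ^ 2 := by
      rw [mul_pow, hQ]; exact h2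
    exact (abs_le_of_sq_le_sq' h5 (mul_nonneg hq0 dist_nonneg)).2

/-- **Polynomial upper bound.**  For every `D ≥ 1` and `k ≥ 1`,
`U_D(k) ≤ 4 * D * k ^ (2 + D ^ 2 / 2)`. -/
theorem result (D : ℝ) (hD : 1 ≤ D) (k : ℕ) (hk : 1 ≤ k) :
    U.{u} D k ≤ ENNReal.ofReal (4 * D * (k : ℝ) ^ (2 + D ^ 2 / 2)) := by
  have hone : 1 ≤ 4 * D * (k : ℝ) ^ (2 + D ^ 2 / 2) := by
    have : (1 : ℝ) ≤ (k : ℝ) ^ (2 + D ^ 2 / 2) :=
      Real.one_le_rpow (by exact_mod_cast hk) (by positivity)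
    nlinarith
  refine iSup_le fun X => iSup_le fun _ => iSup_le fun A => iSup_le fun hA => ?_
  exact iInf_le_of_le _ (iInf_le_of_le hone (iInf_le_of_le (main D hD k hk X A hA) le_rfl))

end Pool.Agent.Results.MP_caca3f_an.PolynomialUnion
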